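import Pool.Agent.Q156.SX.I

set_option autoImplicit false

/-! MP_3c9300_gt, Q1: the sharp local section inequality for `s`-covers of coordinates holds. -/

open MeasureTheory Set

namespace Pool.Agent.Results.MP_3c9300_gt.SectionInequality

/-- `vol(K ∩ (x + H_S^⊥))`: the `(n - |S|)`-dimensional volume of the section of `K` by the
coordinate flat `{z : z i = x i for i ∈ S}`, measured in the coordinates outside `S`. -/
noncomputable def secVol {n : ℕ} (K : Set (Fin n → ℝ)) (S : Finset (Fin n)) (x : Fin n → ℝ) :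
    ENNReal :=
  volume {y : {i : Fin n // i ∉ S} → ℝ | (fun i => if h : i ∈ S then x i else y ⟨i, h⟩) ∈ K}

/-- `M_σ(K)` -/
noncomputable def maxSec {n : ℕ} (K : Set (Fin n → ℝ)) (σ : Finset (Fin n)) : ENNReal :=
  ⨆ x : Fin n → ℝ, secVol K σ x

/-- `(S 0, …, S (m-1))` is an `s`-cover of `σ` -/
def IsCover {n m : ℕ} (s : ℕ) (σ : Finset (Fin n)) (S : Fin m → Finset (Fin n)) : Prop :=
  (∀ j, S j ⊆ σ) ∧ ∀ i ∈ σ, (Finset.univ.filter fun j => i ∈ S j).card = s

/-- the constant `c(σ_1, …, σ_m)` -/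
noncomputable def cst {n m : ℕ} (s : ℕ) (σ : Finset (Fin n)) (S : Fin m → Finset (Fin n)) : ℝ :=
  (∏ j, ((σ.card - (S j).card).factorial : ℝ)) / (σ.card.factorial : ℝ) ^ ((m : ℤ) - s)

lemma secVol_eq {n : ℕ} (K : Set (Fin n → ℝ)) (S : Finset (Fin n)) (x : Fin n → ℝ) :
    secVol K S x = Pool.Agent.Q156.SX.sec K S (fun i => x i) := rfl

lemma maxSec_eq {n : ℕ} (K : Set (Fin n → ℝ)) (σ : Finset (Fin n)) :
    maxSec K σ = ⨆ x, Pool.Agent.Q156.SX.sec K σ x := by
  unfold maxSec
  have hs : Function.Surjective fun (x : Fin n → ℝ) (i : {i // i ∈ σ}) => x i := by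
    intro y
    refine ⟨fun i => if h : i ∈ σ then y ⟨i, h⟩ else 0, ?_⟩
    funext i
    simp
  exact hs.iSup_comp (g := fun x => Pool.Agent.Q156.SX.sec K σ x)

lemma secVol_lt_top {n : ℕ} {K : Set (Fin n → ℝ)} (hK : IsCompact K) (S : Finset (Fin n))
    (x : Fin n → ℝ) : secVol K S x ≠ ⊤ := by
  obtain ⟨R, hR⟩ := Pool.Agent.Q156.SX.exists_R hK
  rw [secVol_eq]
  exact ((Pool.Agent.Q156.SX.sec_lt hR S _).trans_lt (Pool.Agent.Q156.SX.box_lt R)).ne

lemma maxSec_ne_top {n : ℕ} {K : Set (Fin n → ℝ)} (hK : IsCompact K) (σ : Finset (Fin n)) :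
    maxSec K σ ≠ ⊤ := by
  obtain ⟨R, hR⟩ := Pool.Agent.Q156.SX.exists_R hK
  rw [maxSec_eq]
  exact ((iSup_le (Pool.Agent.Q156.SX.sec_lt hR σ)).trans_lt (Pool.Agent.Q156.SX.box_lt R)).ne

lemma secVol_empty {n : ℕ} {K : Set (Fin n → ℝ)} (hK : IsCompact K) (x : Fin n → ℝ) :
    secVol K ∅ x = volume K := by
  rw [secVol_eq]
  have h0 : (fun i : {i : Fin n // i ∈ (∅ : Finset (Fin n))} => x i) = 0 := by
    funext i
    exact absurd i.2 (Finset.notMem_empty _)
  rw [h0, Pool.Agent.Q156.SX.sec_zero hK.measurableSet]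
  have h1 : (fun i : Fin n => i ∉ (∅ : Finset (Fin n))) = fun _ => True := by
    funext i
    simp
  rw [h1, Pool.Agent.Q156.SX.mu_true]

theorem result (n : ℕ) (K : Set (Fin n → ℝ)) (hK : IsCompact K) (hKconv : Convex ℝ K)
    (hKint : (interior K).Nonempty) (σ : Finset (Fin n)) (_hσ : σ ≠ Finset.univ) (m s : ℕ)
    (S : Fin m → Finset (Fin n)) (hS : IsCover s σ S) :
    cst s σ S * ∏ j, (secVol K (S j) 0).toReal ≤
      (volume K).toReal ^ ((m : ℤ) - s) * (maxSec K σ).toReal ^ s := by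
  have hVT : volume K ≠ ⊤ := hK.measure_lt_top.ne
  have hV0 : volume K ≠ 0 :=
    (lt_of_lt_of_le (isOpen_interior.measure_pos volume hKint)
      (measure_mono interior_subset)).ne'
  have hV : 0 < (volume K).toReal := ENNReal.toReal_pos hV0 hVT
  unfold cst
  rcases σ.eq_empty_or_nonempty with hσ | hσ
  · subst hσ
    have hSe : ∀ j, S j = ∅ := fun j => Finset.subset_empty.1 (hS.1 j)
    have h1 : maxSec K ∅ = volume K := by
      unfold maxSec
      simp_rw [secVol_empty hK]
      exact ciSup_const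
    have h2 : ∀ j, (secVol K (S j) 0).toReal = (volume K).toReal := fun j => by
      rw [hSe j, secVol_empty hK]
    rw [h1]
    simp_rw [h2, hSe]
    simp only [Finset.card_empty, Nat.sub_self, Nat.factorial_zero, Nat.cast_one,
      Finset.prod_const_one, one_zpow, div_one, one_mul, Finset.prod_const, Finset.card_univ,
      Fintype.card_fin]
    rw [← zpow_natCast, ← zpow_natCast, ← zpow_add₀ hV.ne']
    apply le_of_eq
    congr 1
    ring
  · have hsm : s ≤ m := by
      obtain ⟨i, hi⟩ := hσ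
      rw [← hS.2 i hi]
      exact (Finset.card_le_univ _).trans (by simp)
    have hmain := Pool.Agent.Q156.SX.main_ennreal hK hKconv hKint σ hσ S hS.1 (s := s)
      (by
        intro i hi
        rw [← hS.2 i hi]) (maxSec K σ) (maxSec_eq K σ)
    have hRT : ((σ.card.factorial : ENNReal) * volume K) ^ (m - s) * maxSec K σ ^ s ≠ ⊤ :=
      ENNReal.mul_ne_top (ENNReal.pow_ne_top (ENNReal.mul_ne_top (ENNReal.natCast_ne_top _) hVT))
        (ENNReal.pow_ne_top (maxSec_ne_top hK σ))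
    have h1 := ENNReal.toReal_mono hRT hmain
    rw [ENNReal.toReal_prod, ENNReal.toReal_mul, ENNReal.toReal_pow, ENNReal.toReal_pow,
      ENNReal.toReal_mul, ENNReal.toReal_natCast] at h1
    have h2 : ∀ j, (((σ.card - (S j).card).factorial : ENNReal) *
        Pool.Agent.Q156.SX.sec K (S j) 0).toReal =
        ((σ.card - (S j).card).factorial : ℝ) * (secVol K (S j) 0).toReal := by
      intro j
      rw [ENNReal.toReal_mul, ENNReal.toReal_natCast]
      rfl
    simp_rw [h2] at h1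
    rw [Finset.prod_mul_distrib] at h1
    have h3 : ((m : ℤ) - s) = ((m - s : ℕ) : ℤ) := by
      rw [Nat.cast_sub hsm]
    rw [h3, zpow_natCast, zpow_natCast, div_mul_eq_mul_div, div_le_iff₀ (by positivity)]
    refine h1.trans (le_of_eq ?_)
    rw [mul_pow]
    ring

end Pool.Agent.Results.MP_3c9300_gt.SectionInequality
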